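import Pool.Agent.K3h5.PZ.Stm

set_option autoImplicit false

/-!
# Brick LIN (MP_7322d1_co, Q2): the critical equations
-/

namespace Pool.Agent.K3h49.PZ

open Pool.Agent.K3h40.Cyc Pool.Agent.K3h5.PZ Finset Matrix

variable {d : ℕ}

lemma kk_skew (i j : ℕ) : kk j i = -kk i j := by
  unfold kk
  split_ifs <;> omega

/-- the skew form -/
noncomputable def mm (f h : ZMod (d + 3) → ℝ) : ℝ :=
  ∑ i, ∑ j, (kk i.val j.val : ℝ) * f i * h j

lemma mm_skew (f h : ZMod (d + 3) → ℝ) : mm f h = -mm h f := by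
  unfold mm
  rw [Finset.sum_comm, ← Finset.sum_neg_distrib]
  refine Finset.sum_congr rfl fun i _ => ?_
  rw [← Finset.sum_neg_distrib]
  refine Finset.sum_congr rfl fun j _ => ?_
  have : (kk j.val i.val : ℝ) = -(kk i.val j.val : ℝ) := by
    rw [kk_skew]; push_cast; ring
  rw [this]; ring

lemma mm_self (f : ZMod (d + 3) → ℝ) : mm f f = 0 := by
  have := mm_skew f f
  linarith

lemma Gf_re (g : ZMod (d + 3) → ℂ) (j : ZMod (d + 3)) :
    (Gf g j).re = (1 / 2) * ∑ i : ZMod (d + 3), (kk i.val j.val : ℝ) * (g i).re := by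
  unfold Gf
  have e : (1 / 2 : ℂ) = ((1 / 2 : ℝ) : ℂ) := by push_cast; rfl
  rw [e, Complex.re_ofReal_mul, Complex.re_sum]
  congr 1
  refine Finset.sum_congr rfl fun i _ => ?_
  rw [← Complex.ofReal_intCast, Complex.re_ofReal_mul]

lemma Gf_im (g : ZMod (d + 3) → ℂ) (j : ZMod (d + 3)) :
    (Gf g j).im = (1 / 2) * ∑ i : ZMod (d + 3), (kk i.val j.val : ℝ) * (g i).im := by
  unfold Gf
  have e : (1 / 2 : ℂ) = ((1 / 2 : ℝ) : ℂ) := by push_cast; rfl
  rw [e, Complex.im_ofReal_mul, Complex.im_sum]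
  congr 1
  refine Finset.sum_congr rfl fun i _ => ?_
  rw [← Complex.ofReal_intCast, Complex.im_ofReal_mul]

lemma sum_Gf_re (g : ZMod (d + 3) → ℂ) (h : ZMod (d + 3) → ℝ) :
    ∑ j, h j * (Gf g j).re = (1 / 2) * mm (fun i => (g i).re) h := by
  unfold mm
  rw [Finset.sum_comm, Finset.mul_sum]
  refine Finset.sum_congr rfl fun j _ => ?_
  rw [Gf_re, Finset.mul_sum, Finset.mul_sum, Finset.mul_sum]
  refine Finset.sum_congr rfl fun i _ => ?_
  ring

lemma sum_Gf_im (g : ZMod (d + 3) → ℂ) (h : ZMod (d + 3) → ℝ) :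
    ∑ j, h j * (Gf g j).im = (1 / 2) * mm (fun i => (g i).im) h := by
  unfold mm
  rw [Finset.sum_comm, Finset.mul_sum]
  refine Finset.sum_congr rfl fun j _ => ?_
  rw [Gf_im, Finset.mul_sum, Finset.mul_sum, Finset.mul_sum]
  refine Finset.sum_congr rfl fun i _ => ?_
  ring

lemma mm_re_im (g : ZMod (d + 3) → ℂ) (hg : ∑ i, g i = 0) :
    (1 / 2) * mm (fun i => (g i).re) (fun i => (g i).im) = SS g := by
  have h1 := QQ_eq_two_SS g hg
  have h2 := QQ_eq g
  have h3 : ∑ j, wdg (Gf g j) (g j) =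
      (∑ j, (g j).im * (Gf g j).re) - ∑ j, (g j).re * (Gf g j).im := by
    rw [← Finset.sum_sub_distrib]
    refine Finset.sum_congr rfl fun j _ => ?_
    unfold wdg; ring
  rw [h2, h3, sum_Gf_re g (fun j => (g j).im), sum_Gf_im g (fun j => (g j).re)] at h1
  have h4 := mm_skew (fun i => (g i).im) (fun i => (g i).re)
  linarith

/-- the identity behind the second family of equations -/
theorem sum_wdg_Gf (g : ZMod (d + 3) → ℂ) (hg : ∑ i, g i = 0) (z : ℂ) :
    ∑ j, ((wdg (g j) z : ℝ) : ℂ) * Gf g j = -((SS g : ℝ) : ℂ) * z := by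
  have hR := mm_self (fun i => (g i).re)
  have hI := mm_self (fun i => (g i).im)
  have hRI := mm_re_im g hg
  have hIR := mm_skew (fun i => (g i).im) (fun i => (g i).re)
  have a1 := sum_Gf_re g (fun j => (g j).re)
  have a2 := sum_Gf_re g (fun j => (g j).im)
  have a3 := sum_Gf_im g (fun j => (g j).re)
  have a4 := sum_Gf_im g (fun j => (g j).im)
  apply Complex.ext
  · rw [Complex.re_sum]
    have e : ∀ j, (((wdg (g j) z : ℝ) : ℂ) * Gf g j).re =
        z.im * ((g j).re * (Gf g j).re) - z.re * ((g j).im * (Gf g j).re) := by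
      intro j
      rw [Complex.re_ofReal_mul]; unfold wdg; ring
    rw [Finset.sum_congr rfl fun j _ => e j, Finset.sum_sub_distrib, ← Finset.mul_sum,
      ← Finset.mul_sum, a1, a2, hR]
    have e2 : (-((SS g : ℝ) : ℂ) * z).re = -(SS g * z.re) := by
      rw [neg_mul, Complex.neg_re, Complex.re_ofReal_mul]
    rw [e2, ← hRI]; ring
  · rw [Complex.im_sum]
    have e : ∀ j, (((wdg (g j) z : ℝ) : ℂ) * Gf g j).im =
        z.im * ((g j).re * (Gf g j).im) - z.re * ((g j).im * (Gf g j).im) := by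
      intro j
      rw [Complex.im_ofReal_mul]; unfold wdg; ring
    rw [Finset.sum_congr rfl fun j _ => e j, Finset.sum_sub_distrib, ← Finset.mul_sum,
      ← Finset.mul_sum, a3, a4, hI, hIR]
    have e2 : (-((SS g : ℝ) : ℂ) * z).im = -(SS g * z.im) := by
      rw [neg_mul, Complex.neg_im, Complex.im_ofReal_mul]
    rw [e2, ← hRI]; ring

lemma sum_aug_Bm (p : Fin (d + 3) → EE d) (hD : (gram p).det ≠ 0) (l m : Fin (d + 1)) :
    ∑ i, aug p i l * Bm p i m = if l = m then 1 else 0 := by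
  have h1 : (gram p)⁻¹ * gram p = 1 := Matrix.nonsing_inv_mul _ (isUnit_iff_ne_zero.2 hD)
  have h2 := congrFun (congrFun h1 m) l
  rw [Matrix.mul_apply, Matrix.one_apply] at h2
  have h3 : ∀ l', gram p l' l = ∑ i, aug p i l' * aug p i l := by
    intro l'
    unfold Pool.Agent.K3h40.Cyc.gram
    rw [Matrix.mul_apply]
    rfl
  have h4 : ∑ i, aug p i l * Bm p i m = ∑ l', (gram p)⁻¹ m l' * gram p l' l := by
    unfold Bm
    simp_rw [h3, Finset.mul_sum]
    rw [Finset.sum_comm]
    refine Finset.sum_congr rfl fun l' _ => Finset.sum_congr rfl fun i _ => ?_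
    ring
  rw [h4, h2]
  simp only [eq_comm]

lemma sum_aug_wdg {p : Fin (d + 3) → EE d} {g : Fin (d + 3) → ℂ} (h : Gale p g)
    (l : Fin (d + 1)) (z : ℂ) : ∑ i, aug p i l * wdg (g i) z = 0 := by
  have h1 : wdg (∑ i, (aug p i l : ℂ) * g i) z = 0 := by rw [h.sum_g l, wdg_zero_left]
  rw [wdg_sum_left] at h1
  rw [← h1]
  refine Finset.sum_congr rfl fun i _ => ?_
  rw [wdg_real_mul_left]

theorem t_LIN : S_LIN := by
  intro d hd hd0 p g lam hG hD hdV
  have key : ∀ (i : Fin (d + 3)) (k : Fin d), lam i * p i k =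
      Bm p i k.succ * SS (d := d) g + ∑ a : Fin (d + 3), Bm p a k.succ *
        wdg (g i) (Gf (d := d) g a) := by
    intro i k
    have h := hdV i (EuclideanSpace.single k (1 : ℝ))
    have hb : ∀ a, bet p a (EuclideanSpace.single k (1 : ℝ)) = Bm p a k.succ := by
      intro a
      unfold bet
      rw [Finset.sum_eq_single k]
      · simp
      · intro b _ hb
        simp [hb]
      · intro h; exact absurd (Finset.mem_univ k) h
    have hi : inner ℝ (p i) (EuclideanSpace.single k (1 : ℝ)) = p i k := by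
      rw [inner_eq_sum, Finset.sum_eq_single k]
      · simp
      · intro b _ hb
        simp [hb]
      · intro h; exact absurd (Finset.mem_univ k) h
    unfold dV at h
    rw [hi] at h
    simp only [hb] at h
    exact h.symm
  constructor
  · intro l k
    have e : ∀ i, aug p i l * (lam i * p i k) = SS (d := d) g * (aug p i l * Bm p i k.succ) +
        ∑ a : Fin (d + 3), Bm p a k.succ * (aug p i l * wdg (g i) (Gf (d := d) g a)) := by
      intro i
      rw [key, mul_add, Finset.mul_sum]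
      congr 1
      · ring
      · refine Finset.sum_congr rfl fun a _ => ?_
        ring
    rw [Finset.sum_congr rfl fun i _ => e i, Finset.sum_add_distrib, ← Finset.mul_sum,
      sum_aug_Bm p hD, Finset.sum_comm]
    have e2 : ∑ a : Fin (d + 3), ∑ i, Bm p a k.succ *
        (aug p i l * wdg (g i) (Gf (d := d) g a)) = 0 := by
      refine Finset.sum_eq_zero fun a _ => ?_
      rw [← Finset.mul_sum, sum_aug_wdg hG, mul_zero]
    rw [e2]
    split_ifs <;> ring
  · intro k
    have e : ∀ j : Fin (d + 3), ((lam j * p j k : ℝ) : ℂ) * Gf (d := d) g j =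
        ((SS (d := d) g : ℝ) : ℂ) * (((Bm p j k.succ : ℝ) : ℂ) * Gf (d := d) g j) +
        ∑ a : Fin (d + 3), ((Bm p a k.succ : ℝ) : ℂ) *
          (((wdg (g j) (Gf (d := d) g a) : ℝ) : ℂ) * Gf (d := d) g j) := by
      intro j
      rw [key]
      push_cast
      rw [add_mul, Finset.sum_mul]
      congr 1
      · ring
      · refine Finset.sum_congr rfl fun a _ => ?_
        ring
    rw [Finset.sum_congr rfl fun j _ => e j, Finset.sum_add_distrib, Finset.sum_comm,
      ← Finset.mul_sum]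
    have e2 : ∀ a : Fin (d + 3), ∑ j : Fin (d + 3), ((Bm p a k.succ : ℝ) : ℂ) *
        (((wdg (g j) (Gf (d := d) g a) : ℝ) : ℂ) * Gf (d := d) g j) =
        ((Bm p a k.succ : ℝ) : ℂ) * (-((SS (d := d) g : ℝ) : ℂ) * Gf (d := d) g a) := by
      intro a
      rw [← Finset.mul_sum]
      congr 1
      exact sum_wdg_Gf (d := d) g hG.sum _
    rw [Finset.sum_congr rfl fun a _ => e2 a, Finset.mul_sum, ← Finset.sum_add_distrib]
    refine Finset.sum_eq_zero fun a _ => ?_
    ring

end Pool.Agent.K3h49.PZ
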